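import Pool.Agent.Helper35.CL.StA

/-! Module PT of project CL: divergence of the radial field about the origin. -/

set_option autoImplicit false

namespace Helper69.CL

open Pool.Agent.Helper35.CL Helper32.CL Helper35.PI Helper35.PI2
open scoped ContDiff Manifold Topology ENNReal BigOperators
open MeasureTheory Set Filter

theorem hPT (hV6a : StV6a) (hI2 : StI2) (hI3 : StI3) (hI4 : StI4) (hNR : StNR) (hFR : StFR) (hSM : StSM) :
    StPT := by
  intro N M _ _ _ F hF t ht ζ hζ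
  have hFs : ContMDiff (𝓡 2) 𝓘(ℝ, EE N) 1 (fun q => F q t) := by
    have h1 : ContMDiffOn ((𝓡 2).prod 𝓘(ℝ, ℝ)) 𝓘(ℝ, EE N) ∞
        (fun z : M × ℝ => F z.1 z.2) (univ ×ˢ Iio 0) := hF.smooth
    have h2 : ContMDiff (𝓡 2) ((𝓡 2).prod 𝓘(ℝ, ℝ)) ∞ (fun q : M => (q, t)) :=
      contMDiff_id.prodMk contMDiff_const
    have h3 : ContMDiff (𝓡 2) 𝓘(ℝ, EE N) ∞ (fun q => F q t) := by
      intro q
      have h4 : ContMDiffAt ((𝓡 2).prod 𝓘(ℝ, ℝ)) 𝓘(ℝ, EE N) ∞ (fun z : M × ℝ => F z.1 z.2) (q, t) :=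
        (h1 (q, t) ⟨mem_univ _, ht⟩).contMDiffAt
          (prod_mem_nhds univ_mem (Iio_mem_nhds ht))
      exact h4.comp q (h2 q)
    exact h3.of_le (by exact_mod_cast le_top)
  refine ⟨?_, ?_⟩
  · have h5 : ContDiff ℝ 1 (fun v : EE N => ζ (‖v‖ ^ 2) • v) :=
      (hζ.comp (contDiff_norm_sq ℝ)).smul contDiff_id
    exact h5.contMDiff.comp hFs
  · intro q
    set f : EE 2 → EE N := loc (n := 2) F q t with hf
    set y₀ : EE 2 := chartAt (EE 2) q q with hy₀
    have hq : q ∈ (chartAt (EE 2) q).source := mem_chart_source _ q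
    have hy₀t : y₀ ∈ (chartAt (EE 2) q).target := mem_chart_target _ q
    have hfx : f y₀ = F q t := by
      rw [hf, hy₀]
      show F ((chartAt (EE 2) q).symm (chartAt (EE 2) q q)) t = F q t
      rw [(chartAt (EE 2) q).left_inv hq]
    obtain ⟨hLI, -⟩ := hI3 2 N M F hF q q t ht hq
    have hfd : DifferentiableAt ℝ f y₀ := by
      have h1 := hI2 2 N M F hF q
      have h2 : ContDiffAt ℝ ∞ (fun z : EE 2 × ℝ => F ((chartAt (EE 2) q).symm z.1) z.2) (y₀, t) :=
        h1.contDiffAt (prod_mem_nhds ((chartAt (EE 2) q).open_target.mem_nhds hy₀t) (Iio_mem_nhds ht))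
      have h3 : DifferentiableAt ℝ (fun z : EE 2 × ℝ => F ((chartAt (EE 2) q).symm z.1) z.2) (y₀, t) :=
        h2.differentiableAt (by simp)
      have h4 : DifferentiableAt ℝ (fun y : EE 2 => (y, t)) y₀ := by fun_prop
      exact DifferentiableAt.comp y₀ h3 h4
    obtain ⟨hN1, -, -, -, -, -, hN7, -⟩ := hNR 2 N f y₀ hLI
    obtain ⟨hPD, hdet, -⟩ := hFR 2 N f y₀ hLI
    -- derivative of the field in the chart
    have hder : ∀ i : Fin 2, fderiv ℝ (fun y => ζ (‖f y‖ ^ 2) • f y) y₀ (ee i) =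
        (2 * deriv ζ (‖f y₀‖ ^ 2) * inner ℝ (f y₀) (dv1 f y₀ i)) • f y₀ + ζ (‖f y₀‖ ^ 2) • dv1 f y₀ i := by
      intro i
      have h1 : HasFDerivAt f (fderiv ℝ f y₀) y₀ := hfd.hasFDerivAt
      have h2 := h1.norm_sq
      have h3 : HasDerivAt ζ (deriv ζ (‖f y₀‖ ^ 2)) (‖f y₀‖ ^ 2) :=
        (hζ.differentiable (by simp)).differentiableAt.hasDerivAt
      have h4 := h3.comp_hasFDerivAt y₀ h2
      have h5 := h4.smul h1
      have h6 : fderiv ℝ (fun y => ζ (‖f y‖ ^ 2) • f y) y₀ = _ := h5.fderiv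
      rw [h6]
      simp only [dv1, ContinuousLinearMap.add_apply, ContinuousLinearMap.smul_apply,
        ContinuousLinearMap.smulRight_apply, ContinuousLinearMap.comp_apply, innerSL_apply_apply, Function.comp,
        smul_eq_mul]
      rw [add_comm]
      congr 2
      simp
      ring
    have hG : ∑ i, ∑ j, (gram f y₀)⁻¹ i j * gram f y₀ i j = 2 := by
      have hsym : ∀ i j, gram f y₀ i j = gram f y₀ j i := by
        intro i j
        simp only [gram, Matrix.of_apply]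
        exact real_inner_comm _ _
      have h1 : ((gram f y₀)⁻¹ * gram f y₀) = 1 := Matrix.nonsing_inv_mul _ hdet
      have h2 : Matrix.trace ((gram f y₀)⁻¹ * gram f y₀) = 2 := by
        rw [h1, Matrix.trace_one]; simp
      rw [← h2, Matrix.trace]
      refine Finset.sum_congr rfl fun i _ => ?_
      rw [Matrix.diag_apply, Matrix.mul_apply]
      exact Finset.sum_congr rfl fun j _ => by rw [hsym i j]
    have hT : f y₀ - nrm f y₀ (f y₀) = ∑ k, ∑ l, ((gram f y₀)⁻¹ k l * inner ℝ (f y₀) (dv1 f y₀ k)) • dv1 f y₀ l := by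
      simp only [nrm]; abel
    have hS : ∑ i, ∑ j, (gram f y₀)⁻¹ i j * (inner ℝ (f y₀) (dv1 f y₀ i) * inner ℝ (f y₀) (dv1 f y₀ j)) =
        ‖f y₀‖ ^ 2 - ‖nrm f y₀ (f y₀)‖ ^ 2 := by
      have h1 : (inner ℝ (f y₀) (f y₀ - nrm f y₀ (f y₀)) : ℝ) =
          ∑ i, ∑ j, (gram f y₀)⁻¹ i j * (inner ℝ (f y₀) (dv1 f y₀ i) * inner ℝ (f y₀) (dv1 f y₀ j)) := by
        rw [hT, inner_sum]
        refine Finset.sum_congr rfl fun i _ => ?_
        rw [inner_sum]
        refine Finset.sum_congr rfl fun j _ => ?_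
        rw [inner_smul_right]; ring
      have h2 : (inner ℝ (nrm f y₀ (f y₀)) (f y₀ - nrm f y₀ (f y₀)) : ℝ) = 0 := by
        rw [hT, inner_sum]
        refine Finset.sum_eq_zero fun i _ => ?_
        rw [inner_sum]
        refine Finset.sum_eq_zero fun j _ => ?_
        rw [inner_smul_right, hN1, mul_zero]
      rw [inner_sub_right, real_inner_self_eq_norm_sq] at h1 h2
      have h3 := real_inner_comm (f y₀) (nrm f y₀ (f y₀))
      linarith
    have hw : wvF 2 0 F q t = nrm f y₀ (f y₀) := by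
      simp only [wvF, wvl, zero_smul, add_zero]
      rfl
    rw [hw, ← hfx]
    have hdvg : dvg (n := 2) F (fun q => ζ (‖F q t‖ ^ 2) • F q t) q t =
        ∑ i, ∑ j, (gram f y₀)⁻¹ i j *
          inner ℝ (fderiv ℝ (fun y => ζ (‖f y‖ ^ 2) • f y) y₀ (ee i)) (dv1 f y₀ j) := rfl
    rw [hdvg]
    have hexp : ∀ i j : Fin 2, (gram f y₀)⁻¹ i j *
          inner ℝ (fderiv ℝ (fun y => ζ (‖f y‖ ^ 2) • f y) y₀ (ee i)) (dv1 f y₀ j) =
        2 * deriv ζ (‖f y₀‖ ^ 2) *
          ((gram f y₀)⁻¹ i j * (inner ℝ (f y₀) (dv1 f y₀ i) * inner ℝ (f y₀) (dv1 f y₀ j))) +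
        ζ (‖f y₀‖ ^ 2) * ((gram f y₀)⁻¹ i j * gram f y₀ i j) := by
      intro i j
      rw [hder, inner_add_left, inner_smul_left, inner_smul_left]
      simp only [gram, Matrix.of_apply, RCLike.conj_to_real]
      ring
    simp_rw [hexp, Finset.sum_add_distrib, ← Finset.mul_sum]
    rw [hG, hS]
    ring

end Helper69.CL
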