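import Pool.Agent.Helper35.CL.StA

/-! Module HP of project CL: pointwise facts for Huisken's monotonicity formula. -/

set_option autoImplicit false

namespace Helper69.CL

open Pool.Agent.Helper35.CL Helper32.CL Helper35.PI Helper35.PI2
open scoped ContDiff Manifold Topology ENNReal BigOperators
open MeasureTheory Set Filter

theorem hHP (hPT : StPT) (hML : StML) (hCN : StCN) : StHP := by
  intro N M _ _ _ F hF
  obtain ⟨hcF, hcH, -, -⟩ := hCN N M F hF
  have hct : ContinuousOn (fun z : M × ℝ => z.2) (univ ×ˢ Iio 0) := continuous_snd.continuousOn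
  have hne : ∀ z ∈ (univ ×ˢ Iio (0 : ℝ) : Set (M × ℝ)), (-z.2) ≠ 0 := by
    rintro ⟨q, t⟩ ⟨-, ht⟩
    have : t < 0 := ht
    simp only [ne_eq, neg_eq_zero]; exact this.ne
  have hgc : CST (fun q t => gk F q t) := by
    have h1 : ContinuousOn (fun z : M × ℝ => (4 * Real.pi * (-z.2))⁻¹) (univ ×ˢ Iio 0) := by
      refine ContinuousOn.inv₀ (continuousOn_const.mul hct.neg) ?_
      intro z hz
      have := hne z hz
      have hp := Real.pi_pos
      exact mul_ne_zero (by positivity) this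
    have h2 : ContinuousOn (fun z : M × ℝ => Real.exp (-‖F z.1 z.2‖ ^ 2 / (4 * (-z.2)))) (univ ×ˢ Iio 0) := by
      refine Real.continuous_exp.comp_continuousOn ?_
      refine ContinuousOn.div ((hcF.norm.pow 2).neg) (continuousOn_const.mul hct.neg) ?_
      intro z hz
      exact mul_ne_zero (by norm_num) (hne z hz)
    exact h1.mul h2
  refine ⟨fun q t => gk F q t * (1 / (-t) - ‖F q t‖ ^ 2 / (4 * t ^ 2)
    - inner ℝ (F q t) (HH (n := 2) F q t) / (2 * (-t))), hgc, ?_, ?_, ?_⟩
  · refine ContinuousOn.mul hgc ?_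
    refine ContinuousOn.sub (ContinuousOn.sub ?_ ?_) ?_
    · exact continuousOn_const.div hct.neg hne
    · refine ContinuousOn.div (hcF.norm.pow 2) (continuousOn_const.mul (hct.pow 2)) ?_
      intro z hz
      have := hne z hz
      exact mul_ne_zero (by norm_num) (pow_ne_zero 2 (by simpa using this))
    · refine ContinuousOn.div (hcF.inner hcH) (continuousOn_const.mul hct.neg) ?_
      intro z hz
      exact mul_ne_zero (by norm_num) (hne z hz)
  · intro q t ht
    have hFd := hF.flow q t ht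
    have h1 : HasDerivAt (fun s : ℝ => -s) (-1) t := hasDerivAt_neg t
    have h2 : HasDerivAt (fun s => ‖F q s‖ ^ 2) (2 * inner ℝ (F q t) (HH (n := 2) F q t)) t := hFd.norm_sq
    have hpi := Real.pi_pos
    have htn : (-t) ≠ 0 := by simpa using ht.ne
    have h3 : HasDerivAt (fun s : ℝ => (4 * Real.pi * (-s))⁻¹)
        (-(4 * Real.pi * -1) / (4 * Real.pi * (-t)) ^ 2) t :=
      (h1.const_mul (4 * Real.pi)).inv (mul_ne_zero (by positivity) htn)
    have h4 : HasDerivAt (fun s => -‖F q s‖ ^ 2 / (4 * (-s)))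
        ((-(2 * inner ℝ (F q t) (HH (n := 2) F q t)) * (4 * (-t)) - -‖F q t‖ ^ 2 * (4 * -1)) / (4 * (-t)) ^ 2) t :=
      h2.neg.div (h1.const_mul 4) (mul_ne_zero (by norm_num) htn)
    have h5 := h3.mul h4.exp
    have h6 : HasDerivAt (gk F q) _ t := h5
    refine h6.congr_deriv ?_
    simp only [gk]
    have ht0 : t ≠ 0 := ht.ne
    generalize Real.exp (-‖F q t‖ ^ 2 / (4 * -t)) = E
    field_simp
    ring
  · intro t ht
    have hpi := Real.pi_pos
    have ht0 : t ≠ 0 := ht.ne
    have hζ : ContDiff ℝ 1 (fun s : ℝ => (4 * Real.pi * (-t))⁻¹ * Real.exp (-s / (4 * (-t))) / (2 * (-t))) := by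
      fun_prop
    obtain ⟨hP1, hP2⟩ := hPT N M F hF t ht _ hζ
    refine ⟨hP1, fun q => ?_⟩
    have hd : deriv (fun s : ℝ => (4 * Real.pi * (-t))⁻¹ * Real.exp (-s / (4 * (-t))) / (2 * (-t))) (‖F q t‖ ^ 2) =
        -(gk F q t / (2 * (-t))) / (4 * (-t)) := by
      have h1 : HasDerivAt (fun s : ℝ => -s / (4 * (-t))) (-1 / (4 * (-t))) (‖F q t‖ ^ 2) :=
        (hasDerivAt_neg _).div_const _
      have h2 := ((h1.exp).const_mul ((4 * Real.pi * (-t))⁻¹)).div_const (2 * (-t))
      rw [h2.deriv]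
      simp only [gk]
      field_simp
      try ring
    have hv : (fun s : ℝ => (4 * Real.pi * (-t))⁻¹ * Real.exp (-s / (4 * (-t))) / (2 * (-t))) (‖F q t‖ ^ 2) =
        gk F q t / (2 * (-t)) := rfl
    have hP3 : dvg (n := 2) F (fun q => (gk F q t / (2 * (-t))) • F q t) q t =
        2 * (gk F q t / (2 * (-t))) + 2 * (-(gk F q t / (2 * (-t))) / (4 * (-t))) *
          (‖F q t‖ ^ 2 - ‖wvF 2 0 F q t‖ ^ 2) := by
      have := hP2 q
      rw [hd] at this
      exact this
    have hSm : (cφ (fun _ => 0)).Smooth := ⟨contDiff_const, contDiff_const, contDiff_const, contDiff_const⟩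
    obtain ⟨-, -, -, -, -, -, -, hL⟩ := hML 2 N M F hF 0 (-2 * t) (cφ (fun _ => 0)) hSm
    obtain ⟨hL1, hL2, -⟩ := hL q t ht
    have hW : ‖wvF 2 (-2 * t) F q t‖ ^ 2 = ‖wvF 2 0 F q t‖ ^ 2 + 2 * (-2 * t) * inner ℝ (F q t) (HH (n := 2) F q t)
        + (-2 * t) ^ 2 * ‖HH (n := 2) F q t‖ ^ 2 := by
      rw [hL1, norm_add_sq_real, inner_smul_right, hL2, norm_smul, mul_pow, Real.norm_eq_abs, sq_abs]
      ring
    rw [hP3, hW, inner_smul_right, real_inner_comm (F q t) (HH (n := 2) F q t)]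
    beta_reduce
    generalize gk F q t = g
    generalize (inner ℝ (F q t) (HH (n := 2) F q t) : ℝ) = u
    generalize ‖wvF 2 0 F q t‖ = w
    generalize ‖F q t‖ = a
    generalize ‖HH (n := 2) F q t‖ = b
    field_simp
    ring

end Helper69.CL
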